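import Pool.Agent.helper2.BB.Spec
import Pool.Agent.helper71.BB.A1

set_option autoImplicit false

namespace BB

open Metric MeasureTheory Set Filter Topology Asymptotics
open Pool.Agent.helper37.PR

theorem B1z_wlt {E : Type} [NormedAddCommGroup E] [InnerProductSpace ℂ E] {u z : E} (hu : ‖u‖ = 1)
    (hz : z ∈ ball (0 : E) 1) : ‖(inner ℂ u z : ℂ)‖ < 1 := by
  have := norm_inner_le_norm (𝕜 := ℂ) u z
  rw [hu, one_mul] at this
  exact lt_of_le_of_lt this (by simpa using hz)

theorem B1z_ne {w : ℂ} (hw : ‖w‖ < 1) : 1 + w ≠ 0 := by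
  intro h
  have : w = -1 := by linear_combination h
  rw [this] at hw
  simp at hw

/-- the key inequality -/
theorem B1z_key {w : ℂ} (hw : ‖w‖ < 1) :
    0 ≤ ‖w‖ ^ 2 / ‖1 + w‖ ^ 2 + (pp w - w / (1 + w) ^ 2).re := by
  have h1 : 1 + w ≠ 0 := B1z_ne hw
  have hn : 0 < Complex.normSq (1 + w) := Complex.normSq_pos.mpr h1
  have hw2 : Complex.normSq w < 1 := by
    rw [Complex.normSq_eq_norm_sq]; nlinarith [norm_nonneg w]
  have hx : 0 ≤ 1 + w.re := by
    have := Complex.abs_re_le_norm w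
    have := abs_le.mp this
    linarith [this.1]
  have e : ‖w‖ ^ 2 / ‖1 + w‖ ^ 2 + (pp w - w / (1 + w) ^ 2).re =
      (1 - Complex.normSq w) * (1 + w.re) / Complex.normSq (1 + w) ^ 2 := by
    rw [← Complex.normSq_eq_norm_sq, ← Complex.normSq_eq_norm_sq, pp]
    have e1 : (1 - w) / (1 + w) - w / (1 + w) ^ 2 = (1 - w ^ 2 - w) / (1 + w) ^ 2 := by
      field_simp
      ring
    rw [e1, Complex.div_re]
    have e2 : Complex.normSq ((1 + w) ^ 2) = Complex.normSq (1 + w) ^ 2 := map_pow _ _ _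
    rw [e2]
    field_simp
    simp only [Complex.normSq_apply, pow_two, Complex.add_re, Complex.add_im, Complex.sub_re, Complex.sub_im,
      Complex.mul_re, Complex.mul_im, Complex.one_re, Complex.one_im]
    ring
  rw [e]
  apply div_nonneg
  · exact mul_nonneg (by linarith) hx
  · positivity

theorem B1z_pp {w : ℂ} (hw : ‖w‖ < 1) : (pp w).re = (1 - ‖w‖ ^ 2) / ‖1 + w‖ ^ 2 := by
  have h1 : 1 + w ≠ 0 := B1z_ne hw
  rw [← Complex.normSq_eq_norm_sq, ← Complex.normSq_eq_norm_sq, pp, Complex.div_re]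
  have hn : Complex.normSq (1 + w) ≠ 0 := Complex.normSq_pos.mpr h1 |>.ne'
  field_simp
  simp only [Complex.normSq_apply, Complex.add_re, Complex.add_im, Complex.sub_re, Complex.sub_im,
      Complex.one_re, Complex.one_im]
  ring

theorem B1z (E : Type) [NormedAddCommGroup E] [InnerProductSpace ℂ E] [CompleteSpace E] (ε : Bool) (u : E)
    (hu : ‖u‖ = 1) : IsCara (ContinuousLinearMap.id ℂ E) (hf ε u) := by
  have huu : (inner ℂ u u : ℂ) = 1 := by rw [inner_self_eq_norm_sq_to_K, hu]; simp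
  have han : ∀ z ∈ ball (0 : E) 1, AnalyticAt ℂ (fun z : E => (inner ℂ u z : ℂ)) z := fun z _ =>
    (innerSL ℂ u).analyticAt z
  have hppa : ∀ z ∈ ball (0 : E) 1, AnalyticAt ℂ (fun z : E => pp (inner ℂ u z)) z := by
    intro z hz
    unfold pp
    exact (analyticAt_const.sub (han z hz)).div (analyticAt_const.add (han z hz)) (B1z_ne (B1z_wlt hu hz))
  refine ⟨?_, ?_, ?_, ?_⟩
  · intro z hz
    unfold hf
    have hy : AnalyticAt ℂ (fun z : E => z - (inner ℂ u z : ℂ) • u) z :=
      analyticAt_id.sub ((han z hz).smul analyticAt_const)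
    refine (((han z hz).mul (hppa z hz)).smul analyticAt_const).add (AnalyticAt.smul ?_ hy)
    refine (hppa z hz).sub ?_
    cases ε
    · exact analyticAt_const
    · exact (han z hz).div ((analyticAt_const.add (han z hz)).pow 2) (pow_ne_zero 2 (B1z_ne (B1z_wlt hu hz)))
  · simp [hf]
  · have hw : HasFDerivAt (fun z : E => (inner ℂ u z : ℂ)) (innerSL ℂ u) 0 := (innerSL ℂ u).hasFDerivAt
    have hp0 : pp 0 = 1 := by simp [pp]
    have h0 : (0 : E) ∈ ball (0 : E) 1 := by simp
    have hpd : DifferentiableAt ℂ (fun z : E => pp (inner ℂ u z)) 0 := (hppa 0 h0).differentiableAt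
    have hq : DifferentiableAt ℂ (fun z : E => pp (inner ℂ u z) -
        bif ε then (inner ℂ u z : ℂ) / (1 + inner ℂ u z) ^ 2 else 0) 0 := by
      refine hpd.sub ?_
      cases ε
      · exact differentiableAt_const _
      · exact ((han 0 h0).div ((analyticAt_const.add (han 0 h0)).pow 2)
          (pow_ne_zero 2 (B1z_ne (B1z_wlt hu h0)))).differentiableAt
    have h1 := (hw.mul hpd.hasFDerivAt).smul (hasFDerivAt_const u (0 : E))
    have h2 := hq.hasFDerivAt.smul ((hasFDerivAt_id (𝕜 := ℂ) (0 : E)).sub (hw.smul (hasFDerivAt_const u (0 : E))))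
    have h3 := (h1.add h2).fderiv
    have e : (hf ε u) = (fun y => ((inner ℂ u y : ℂ) * pp (inner ℂ u y)) • u) +
      (fun y => (pp (inner ℂ u y) - bif ε then (inner ℂ u y : ℂ) / (1 + inner ℂ u y) ^ 2 else 0) •
        (y - (inner ℂ u y : ℂ) • u)) := rfl
    rw [e]
    refine Eq.trans h3 ?_
    ext v
    cases ε <;> simp [hp0]
  · intro z hz hz0
    set w : ℂ := inner ℂ u z with hwd
    have hwl : ‖w‖ < 1 := B1z_wlt hu hz
    set y : E := z - w • u with hyd
    have huy : (inner ℂ u y : ℂ) = 0 := by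
      rw [hyd, inner_sub_right, inner_smul_right, huu, mul_one, ← hwd, sub_self]
    have hyu : (inner ℂ y u : ℂ) = 0 := by rw [← inner_conj_symm, huy, map_zero]
    have hzy : z = w • u + y := by rw [hyd]; abel
    set b : ℂ := pp w - bif ε then w / (1 + w) ^ 2 else 0 with hbd
    have hin : (inner ℂ z (hf ε u z) : ℂ) = (starRingEnd ℂ w) * (w * pp w) + b * (‖y‖ : ℂ) ^ 2 := by
      have e1 : hf ε u z = (w * pp w) • u + b • y := by rw [hf]
      rw [e1]
      nth_rewrite 1 [hzy]
      rw [inner_add_left, inner_add_right, inner_add_right, inner_smul_left, inner_smul_left, inner_smul_right,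
        inner_smul_right, inner_smul_right, inner_smul_right, huu, huy, hyu, inner_self_eq_norm_sq_to_K]
      simp only [mul_zero, add_zero, zero_add, mul_one]
      rfl
    have hre : (inner ℂ z (hf ε u z) : ℂ).re = ‖w‖ ^ 2 * (pp w).re + b.re * ‖y‖ ^ 2 := by
      rw [hin, ← mul_assoc, mul_comm (starRingEnd ℂ w) w, Complex.mul_conj, Complex.normSq_eq_norm_sq]
      have : ((‖y‖ : ℂ)) ^ 2 = ((‖y‖ ^ 2 : ℝ) : ℂ) := by push_cast; rfl
      rw [this, Complex.add_re, Complex.re_ofReal_mul, mul_comm b, Complex.re_ofReal_mul]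
      ring
    rw [hre]
    have hpos1 : 0 < ‖1 + w‖ ^ 2 := by
      have := norm_pos_iff.mpr (B1z_ne hwl)
      positivity
    have hw21 : ‖w‖ ^ 2 < 1 := by nlinarith [norm_nonneg w]
    have hppos : 0 < (pp w).re := by
      rw [B1z_pp hwl]
      exact div_pos (by linarith) hpos1
    have hnorm : ‖z‖ ^ 2 = ‖w‖ ^ 2 + ‖y‖ ^ 2 := by
      have h1 : (inner ℂ (w • u) y : ℂ) = 0 := by rw [inner_smul_left, huy, mul_zero]
      have h2 := norm_add_sq_eq_norm_sq_add_norm_sq_of_inner_eq_zero (𝕜 := ℂ) (w • u) y h1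
      rw [← hzy, norm_smul, hu, mul_one] at h2
      nlinarith [h2]
    have hz1 : ‖z‖ ^ 2 < 1 := by
      have : ‖z‖ < 1 := by simpa using hz
      nlinarith [norm_nonneg z]
    rcases le_or_gt 0 b.re with hb | hb
    · by_cases hw0 : w = 0
      · have hb1 : b = 1 := by rw [hbd, hw0]; cases ε <;> simp [pp]
        have hy0 : 0 < ‖y‖ := by
          rw [hyd, hw0, zero_smul, sub_zero]
          exact norm_pos_iff.mpr hz0
        rw [hb1, hw0]
        simp only [norm_zero, Complex.one_re]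
        have := pow_pos hy0 2
        nlinarith
      · have hw0' : 0 < ‖w‖ := norm_pos_iff.mpr hw0
        have := mul_pos (pow_pos hw0' 2) hppos
        have := mul_nonneg hb (sq_nonneg ‖y‖)
        linarith
    · have hε : ε = true := by
        cases ε
        · simp [hbd] at hb
          linarith
        · rfl
      have hkey := B1z_key hwl
      have hb' : b = pp w - w / (1 + w) ^ 2 := by rw [hbd, hε]; rfl
      rw [← hb'] at hkey
      have h3 : ‖w‖ ^ 2 * (pp w).re = (1 - ‖w‖ ^ 2) * (‖w‖ ^ 2 / ‖1 + w‖ ^ 2) := by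
        rw [B1z_pp hwl]; ring
      have h4 : ‖y‖ ^ 2 < 1 - ‖w‖ ^ 2 := by linarith
      have h5 : b.re * (1 - ‖w‖ ^ 2) < b.re * ‖y‖ ^ 2 := mul_lt_mul_of_neg_left h4 hb
      rw [h3]
      nlinarith [mul_nonneg (show 0 ≤ 1 - ‖w‖ ^ 2 by linarith) hkey]

end BB
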