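import Pool.Agent.helper2.BB.Spec

set_option autoImplicit false

namespace BB

open Metric MeasureTheory Set Filter Topology Asymptotics

theorem C7z_T {f : ℂ → ℂ} {f1 : ℂ} (hf : AnalyticAt ℂ f 0) (hd : HasDerivAt f f1 0) :
    (fun z => f z - f 0 - z * f1) =O[𝓝 0] fun z : ℂ => z ^ 2 := by
  obtain ⟨p, hp⟩ := hf
  have hg : AnalyticAt ℂ (dslope f 0) 0 := ⟨_, hp.has_fpower_series_dslope_fslope⟩
  have h0 : dslope f 0 0 = f1 := by rw [dslope_same]; exact hd.deriv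
  have h1 : (fun z => dslope f 0 z - dslope f 0 0) =O[𝓝 0] fun z : ℂ => z - 0 :=
    hg.differentiableAt.isBigO_sub
  have h2 : (fun z : ℂ => z * (dslope f 0 z - dslope f 0 0)) =O[𝓝 0] fun z : ℂ => z * (z - 0) :=
    (isBigO_refl _ _).mul h1
  refine (h2.congr ?_ ?_)
  · intro z
    have := sub_smul_dslope f 0 z
    rw [sub_zero, smul_eq_mul] at this
    rw [h0, mul_sub, this]
  · intro z
    ring

theorem C7z_W (b X : ℂ) : AnalyticAt ℂ (fun δ : ℂ => Wd (b * δ) X) 0 ∧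
    HasDerivAt (fun δ : ℂ => Wd (b * δ) X) (b * X) 0 ∧ Wd (b * 0) X = 1 := by
  refine ⟨?_, ?_, ?_⟩
  · unfold Wd
    refine AnalyticAt.cpow (by fun_prop) analyticAt_const (by simp)
  · unfold Wd
    have h1 : HasDerivAt (fun δ : ℂ => 1 + 4 * (b * δ) * X) (4 * (b * 1) * X) 0 :=
      ((((hasDerivAt_id (0 : ℂ)).const_mul b).const_mul 4).mul_const X).const_add 1
    have h2 := h1.cpow_const (c := (1 / 4 : ℂ)) (by simp)
    refine h2.congr_deriv ?_
    simp
    ring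
  · simp [Wd]

theorem C7z (lam : ℝ) : AnalyticAt ℂ (fun p : ℂ × ℂ => DD p.1 lam (Kb p.2)) (0, 0) ∧
    ∀ X : ℂ, (fun δ : ℝ => DD δ lam X - (δ : ℂ) ^ 3 * (-(lam ^ 2 * X ^ 2 - 2 * lam * X ^ 3 + X ^ 4))) =o[𝓝[>] 0]
      fun δ : ℝ => δ ^ 3 := by
  constructor
  · have hK : AnalyticAt ℂ (fun p : ℂ × ℂ => Kb p.2) (0, 0) := by
      unfold Kb
      exact AnalyticAt.div analyticAt_snd ((analyticAt_const.sub analyticAt_snd).pow 2) (by simp)
    have hW : ∀ b : ℂ, AnalyticAt ℂ (fun p : ℂ × ℂ => Wd (b * p.1) (Kb p.2)) (0, 0) := by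
      intro b
      unfold Wd
      refine AnalyticAt.cpow ?_ analyticAt_const (by simp)
      exact analyticAt_const.add (((analyticAt_const.mul (analyticAt_const.mul analyticAt_fst))).mul hK)
    have hW1 : AnalyticAt ℂ (fun p : ℂ × ℂ => Wd p.1 (Kb p.2)) (0, 0) := by
      have := hW 1
      simpa using this
    have hne : ∀ b : ℂ, Wd (b * ((0 : ℂ), (0 : ℂ)).1) (Kb ((0 : ℂ), (0 : ℂ)).2) ≠ 0 := by
      intro b
      simp [Wd]
    unfold DD
    refine AnalyticAt.mul (AnalyticAt.neg (hK.div analyticAt_const (by norm_num))) (AnalyticAt.add ?_ ?_)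
    · refine AnalyticAt.mul (AnalyticAt.pow ?_ 2) (((hW 2).pow 2).sub (hW1.pow 2))
      exact (analyticAt_const.sub ((hW 3).div (hW 2) (hne 2))).add (analyticAt_const.mul analyticAt_fst)
    · refine AnalyticAt.pow ?_ 2
      exact (((analyticAt_const.sub ((hW 3).div (hW 2) (hne 2))).mul hW1).add hW1).sub analyticAt_const
  · intro X
    obtain ⟨a3, d3, v3⟩ := C7z_W 3 X
    obtain ⟨a2, d2, v2⟩ := C7z_W 2 X
    obtain ⟨a1, d1, v1⟩ := C7z_W 1 X
    simp only [one_mul] at a1 d1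
    have v1' : Wd 0 X = 1 := by simp [Wd]
    have v2' : Wd (2 * 0) X = 1 := v2
    have v3' : Wd (3 * 0) X = 1 := v3
    have n2 : Wd (2 * 0) X ≠ 0 := by rw [v2']; exact one_ne_zero
    -- c
    have ac : AnalyticAt ℂ (fun δ : ℂ => 1 - Wd (3 * δ) X / Wd (2 * δ) X) 0 := analyticAt_const.sub (a3.div a2 n2)
    have dc : HasDerivAt (fun δ : ℂ => 1 - Wd (3 * δ) X / Wd (2 * δ) X) (-X) 0 := by
      refine ((d3.div d2 n2).const_sub 1).congr_deriv ?_
      rw [v3', v2']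
      ring
    have hA := C7z_T (f := fun δ : ℂ => 1 - Wd (3 * δ) X / Wd (2 * δ) X + lam * δ) (f1 := lam - X)
      (ac.add (analyticAt_const.mul analyticAt_id)) (by
        refine (dc.add ((hasDerivAt_id (0 : ℂ)).const_mul (lam : ℂ))).congr_deriv ?_
        ring)
    have hD := C7z_T (f := fun δ : ℂ => Wd (2 * δ) X ^ 2 - Wd δ X ^ 2) (f1 := 2 * X)
      ((a2.pow 2).sub (a1.pow 2)) (by
        refine ((d2.pow 2).sub (d1.pow 2)).congr_deriv ?_
        rw [v2', v1']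
        push_cast
        ring)
    have hE := C7z_T (f := fun δ : ℂ => (1 - Wd (3 * δ) X / Wd (2 * δ) X) * Wd δ X + Wd δ X - 1) (f1 := 0)
      (((ac.mul a1).add a1).sub analyticAt_const) (by
        refine ((((dc.mul d1).add d1).sub_const 1)).congr_deriv ?_
        rw [v3', v2', v1']
        ring)
    simp only [v3', v2', v1'] at hA hD hE
    have zA : (fun z : ℂ => (1 - Wd (3 * z) X / Wd (2 * z) X + lam * z) - z * (lam - X)) =O[𝓝 0] fun z : ℂ => z ^ 2 :=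
      hA.congr_left (fun z => by ring)
    have zD : (fun z : ℂ => (Wd (2 * z) X ^ 2 - Wd z X ^ 2) - z * (2 * X)) =O[𝓝 0] fun z : ℂ => z ^ 2 :=
      hD.congr_left (fun z => by ring)
    have zE : (fun z : ℂ => (1 - Wd (3 * z) X / Wd (2 * z) X) * Wd z X + Wd z X - 1) =O[𝓝 0] fun z : ℂ => z ^ 2 :=
      hE.congr_left (fun z => by ring)
    -- sizes
    have hlin : (fun z : ℂ => z ^ 2) =O[𝓝 0] fun z : ℂ => z := by
      have h : (fun z : ℂ => z) =O[𝓝 0] fun _ : ℂ => (1 : ℂ) :=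
        (continuous_id.tendsto (0 : ℂ)).isBigO_one ℂ
      have := (isBigO_refl (fun z : ℂ => z) (𝓝 0)).mul h
      refine this.congr (fun z => by ring) (fun z => by ring)
    have bA : (fun z : ℂ => (1 - Wd (3 * z) X / Wd (2 * z) X + lam * z)) =O[𝓝 0] fun z : ℂ => z := by
      have h1 : (fun z : ℂ => z * (lam - X)) =O[𝓝 0] fun z : ℂ => z := by
        simpa [mul_comm] using (isBigO_refl (fun z : ℂ => z) (𝓝 0)).const_mul_left ((lam : ℂ) - X)
      exact ((zA.trans hlin).add h1).congr_left (fun z => by ring)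
    have bD : (fun z : ℂ => (Wd (2 * z) X ^ 2 - Wd z X ^ 2)) =O[𝓝 0] fun z : ℂ => z := by
      have h1 : (fun z : ℂ => z * (2 * X)) =O[𝓝 0] fun z : ℂ => z := by
        simpa [mul_comm] using (isBigO_refl (fun z : ℂ => z) (𝓝 0)).const_mul_left (2 * X)
      exact ((zD.trans hlin).add h1).congr_left (fun z => by ring)
    have bL : (fun z : ℂ => z * (lam - X)) =O[𝓝 0] fun z : ℂ => z := by
      simpa [mul_comm] using (isBigO_refl (fun z : ℂ => z) (𝓝 0)).const_mul_left ((lam : ℂ) - X)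
    -- product
    have p1 : (fun z : ℂ => ((1 - Wd (3 * z) X / Wd (2 * z) X + lam * z) - z * (lam - X)) *
        ((1 - Wd (3 * z) X / Wd (2 * z) X + lam * z) + z * (lam - X)) * (Wd (2 * z) X ^ 2 - Wd z X ^ 2))
        =O[𝓝 0] fun z : ℂ => z ^ 4 :=
      ((zA.mul (bA.add bL)).mul bD).congr_right (fun z => by ring)
    have p2 : (fun z : ℂ => (z * (lam - X)) * (z * (lam - X)) * ((Wd (2 * z) X ^ 2 - Wd z X ^ 2) - z * (2 * X)))
        =O[𝓝 0] fun z : ℂ => z ^ 4 :=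
      ((bL.mul bL).mul zD).congr_right (fun z => by ring)
    have p3 : (fun z : ℂ => ((1 - Wd (3 * z) X / Wd (2 * z) X) * Wd z X + Wd z X - 1) ^ 2) =O[𝓝 0] fun z : ℂ => z ^ 4 :=
      (zE.mul zE).congr (fun z => by ring) (fun z => by ring)
    have p4 : (fun z : ℂ => DD z lam X - z ^ 3 * (-(lam ^ 2 * X ^ 2 - 2 * lam * X ^ 3 + X ^ 4)))
        =O[𝓝 0] fun z : ℂ => z ^ 4 := by
      refine (((p1.add p2).add p3).const_mul_left (-(X / 2))).congr_left (fun z => ?_)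
      unfold DD
      ring
    have hcast : Tendsto (fun δ : ℝ => (δ : ℂ)) (𝓝[>] 0) (𝓝 0) := by
      have h : Tendsto (fun δ : ℝ => (δ : ℂ)) (𝓝 0) (𝓝 ((0 : ℝ) : ℂ)) := Complex.continuous_ofReal.tendsto 0
      rw [Complex.ofReal_zero] at h
      exact h.mono_left nhdsWithin_le_nhds
    have p5 : (fun δ : ℝ => DD δ lam X - (δ : ℂ) ^ 3 * (-(lam ^ 2 * X ^ 2 - 2 * lam * X ^ 3 + X ^ 4)))
        =O[𝓝[>] 0] fun δ : ℝ => (δ : ℂ) ^ 4 := p4.comp_tendsto hcast
    have p6 : (fun δ : ℝ => (δ : ℂ) ^ 4) =O[𝓝[>] 0] fun δ : ℝ => δ ^ 4 :=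
      IsBigO.of_bound 1 (Eventually.of_forall fun δ => by simp)
    have p7 : (fun δ : ℝ => δ ^ 4) =o[𝓝[>] 0] fun δ : ℝ => δ ^ 3 := by
      have : (fun δ : ℝ => δ ^ 4) =o[𝓝 0] fun δ : ℝ => δ ^ 3 := isLittleO_pow_pow (by norm_num)
      exact this.mono nhdsWithin_le_nhds
    exact (p5.trans p6).trans_isLittleO p7

end BB
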