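import Pool.Agent.helper2.BB.Spec
import Pool.Agent.helper71.BB.A1
import Pool.Agent.helper21.BB.A2
import Pool.Agent.helper2.BB.B1
import Pool.Agent.helper21.BB.B2
import Pool.Agent.helper78.BB.A3
import Pool.Agent.helper46.BB.A4
import Pool.Agent.helper32.BB.A5
import Pool.Agent.helper11.BB.B3
import Pool.Agent.helper82.BB.B4
import Pool.Agent.helper92.BB.B5
import Pool.Agent.helper77.BB.B5a
import Pool.Agent.helper99.BB.C1
import Pool.Agent.helper91.BB.C2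
import Pool.Agent.helper99.BB.C3
import Pool.Agent.helper27.BB.C4a
import Pool.Agent.helper34.BB.C4b
import Pool.Agent.helper66.BB.C4
import Pool.Agent.helper97.BB.C5
import Pool.Agent.helper43.BB.C6
import Pool.Agent.helper2.BB.C7
import Pool.Agent.helper52.BB.C8
import Pool.Agent.helper61.BB.C9
import Pool.Agent.helper98.BB.ZZ

/-! Project bb: assembly. -/

namespace BB

theorem Asm_A2 : A2_stmt := A2 A1
theorem Asm_A3 : A3_stmt := A3 A1
theorem Asm_A4 : A4_stmt := A4 A1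
theorem Asm_B2 : B2_stmt := B2 A1 Asm_A2 Asm_A3
theorem Asm_B3 : B3_stmt := B3 B1z Asm_B2
theorem Asm_B4 : B4_stmt := B4 Asm_A2 Asm_A4 A5 B1z Asm_B2 Asm_B3
theorem Asm_B5 : B5_stmt := B5 Asm_A2 Asm_A4 B1z Asm_B2 Asm_B3 B5a
theorem Asm_C3 : C3_stmt := C3 Asm_A4
theorem Asm_C4a : C4a_stmt := C4a A1 Asm_A2 Asm_A4
theorem Asm_C4b : C4b_stmt := C4b A1 Asm_A4
theorem Asm_C4 : C4_stmt := C4 A1 Asm_A2 Asm_C4a Asm_C4b
theorem Asm_C9 : C9_stmt := C9 Asm_C3 Asm_C4 C5 C6 C7z C8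
theorem Asm_ZZ : ZZ_stmt := ZZ Asm_B4 Asm_B5 C1 C2_main Asm_C9

end BB
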