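import Mathlib
import Pool.Agent.helper37.PR.Defs

/-!
# Project bb (MP_b9b9c0_an): definitions

Explicit Loewner flows in the unit ball of a complex inner product space `E`. For a unit vector `u` write `w = inner ℂ u z`
(the problem's `⟨z, u⟩`). `q = e^{-t}` is the time parameter.
-/

set_option autoImplicit false

namespace BB

open Metric MeasureTheory Set Filter Topology Asymptotics

noncomputable section

/-! ### one complex variable -/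

/-- `(1+w)/(1-w)` -/
def Sg (w : ℂ) : ℂ := (1 + w) / (1 - w)

/-- the Koebe function -/
def Kb (w : ℂ) : ℂ := w / (1 - w) ^ 2

def pp (w : ℂ) : ℂ := (1 - w) / (1 + w)

/-- `1 + q (S^2 - 1) = 1 + 4 q K(w)` -/
def Bs (q : ℝ) (w : ℂ) : ℂ := 1 + (q : ℂ) * (Sg w ^ 2 - 1)

/-- `S^{1/2}` -/
def Rf (w : ℂ) : ℂ := Sg w ^ (1 / 2 : ℂ)

/-- `(1 + q (S^2 - 1))^{1/4}` -/
def Qf (q : ℝ) (w : ℂ) : ℂ := Bs q w ^ (1 / 4 : ℂ)

/-- the one dimensional Koebe flow at time `t`, `q = e^{-t}`: `K(psi q w) = q K(w)` -/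
def psi (q : ℝ) (w : ℂ) : ℂ := (Qf q w ^ 2 - 1) / (Qf q w ^ 2 + 1)

/-- `psi q w = sc q w * w` -/
def sc (q : ℝ) (w : ℂ) : ℂ := (q : ℂ) * ((1 - psi q w) / (1 - w)) ^ 2

def rho (ε : Bool) (q : ℝ) (w : ℂ) : ℂ := bif ε then Rf w / Qf q w else 1

/-- the Taylor coefficient of order `m` at 0 -/
def cf (m : ℕ) (g : ℂ → ℂ) : ℂ := iteratedDeriv m g 0 / (m.factorial : ℂ)

/-! ### the flows in the ball -/

variable {E : Type} [NormedAddCommGroup E] [InnerProductSpace ℂ E]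

/-- the field: `w p(w) u + (p(w) - ε w/(1+w)^2) (z - w u)` -/
def hf (ε : Bool) (u z : E) : E :=
  (inner ℂ u z * pp (inner ℂ u z)) • u +
    (pp (inner ℂ u z) - bif ε then inner ℂ u z / (1 + inner ℂ u z) ^ 2 else 0) • (z - (inner ℂ u z : ℂ) • u)

/-- its flow at time `t`, `q = e^{-t}` -/
def VV (ε : Bool) (u : E) (q : ℝ) (z : E) : E :=
  sc q (inner ℂ u z) • ((inner ℂ u z : ℂ) • u + rho ε q (inner ℂ u z) • (z - (inner ℂ u z : ℂ) • u))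

/-- the limit of `e^t V_t` for `ε = true` -/
def ff (u z : E) : E :=
  ((1 - (inner ℂ u z : ℂ)) ^ 2)⁻¹ • ((inner ℂ u z : ℂ) • u + Rf (inner ℂ u z) • (z - (inner ℂ u z : ℂ) • u))

/-! ### the flows in the plane of `e1, e2` in coordinates, with complex angles -/

/-- `VV ε (cos θ e1 + sin θ e2) q (A e1 + B e2)` in coordinates -/
def stg (ε : Bool) (θ : ℂ) (q : ℝ) (P : ℂ × ℂ) : ℂ × ℂ :=
  (sc q (P.1 * Complex.cos θ + P.2 * Complex.sin θ) * (P.1 * Complex.cos θ + P.2 * Complex.sin θ) * Complex.cos θ -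
    sc q (P.1 * Complex.cos θ + P.2 * Complex.sin θ) * rho ε q (P.1 * Complex.cos θ + P.2 * Complex.sin θ) *
      (P.2 * Complex.cos θ - P.1 * Complex.sin θ) * Complex.sin θ,
   sc q (P.1 * Complex.cos θ + P.2 * Complex.sin θ) * (P.1 * Complex.cos θ + P.2 * Complex.sin θ) * Complex.sin θ +
    sc q (P.1 * Complex.cos θ + P.2 * Complex.sin θ) * rho ε q (P.1 * Complex.cos θ + P.2 * Complex.sin θ) *
      (P.2 * Complex.cos θ - P.1 * Complex.sin θ) * Complex.cos θ)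

/-- the first coordinate of `ff (cos θ e1 + sin θ e2) (A e1 + B e2)` -/
def fin (θ : ℂ) (P : ℂ × ℂ) : ℂ :=
  ((1 - (P.1 * Complex.cos θ + P.2 * Complex.sin θ)) ^ 2)⁻¹ *
    ((P.1 * Complex.cos θ + P.2 * Complex.sin θ) * Complex.cos θ -
      Rf (P.1 * Complex.cos θ + P.2 * Complex.sin θ) * (P.2 * Complex.cos θ - P.1 * Complex.sin θ) * Complex.sin θ)

/-- the first coordinate of our map at `ζ e1` -/
def FF (δ lam : ℝ) (κ ζ : ℂ) : ℂ :=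
  (δ : ℂ)⁻¹ * fin (-κ) (stg false (-((lam : ℂ) * δ * κ)) (1 / 2) (stg true κ (2 / 3) (stg true 0 (3 * δ) (ζ, 0))))

/-- `(1 + 4 b X)^{1/4}` -/
def Wd (b X : ℂ) : ℂ := (1 + 4 * b * X) ^ (1 / 4 : ℂ)

/-- the second order coefficient -/
def DD (δ lam X : ℂ) : ℂ :=
  -(X / 2) * ((1 - Wd (3 * δ) X / Wd (2 * δ) X + lam * δ) ^ 2 * (Wd (2 * δ) X ^ 2 - Wd δ X ^ 2) +
    ((1 - Wd (3 * δ) X / Wd (2 * δ) X) * Wd δ X + Wd δ X - 1) ^ 2)

/-- second order expansion of a curve in the plane: `A = A0 (1 + κ^2 a / W^2) + o(κ^2)`, `B = κ A0 y / W + o(κ)`, `W = Rf A0` -/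
def Jt (P : ℝ → ℂ × ℂ) (A0 a y : ℂ) : Prop :=
  ((fun κ : ℝ => (P κ).1 - A0 - (κ : ℂ) ^ 2 * (A0 * a / Rf A0 ^ 2)) =o[𝓝 0] fun κ : ℝ => κ ^ 2) ∧
  ((fun κ : ℝ => (P κ).2 - (κ : ℂ) * (A0 * y / Rf A0)) =o[𝓝 0] fun κ : ℝ => κ)

end

end BB
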