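import Pool.Agent.helper2.BB.Defs

/-!
# Project bb (MP_b9b9c0_an): for all `n ≥ 2`, `m ≥ 3` there is `f ∈ S^0(B^n)` with `|V(P_m)| > m`

Paper proof: /team-store/MP_b9b9c0_helper2.md.  Every statement below is independent (any other statement of this file may be a
hypothesis of your theorem).
-/

set_option autoImplicit false

namespace BB

open Metric MeasureTheory Set Filter Topology Asymptotics
open Pool.Agent.helper37.PR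

/-! ## A: one complex variable -/

/-- A1. `S = (1+w)/(1-w)` has positive real part for `|w| < 1`, so `S^2` is in the slit plane, and so is
`Bs q w = (1-q) 1 + q S^2` (the slit plane is star shaped about 1: if `S^2 = a + ib`, `b ≠ 0` then the imaginary part `q b ≠ 0`; if `b = 0`
then `S` is real (as `Re S > 0`), `a > 0`). The argument of `Bs` is in `(-π, π)`, so that of `Qf` is in `(-π/4, π/4)`. -/
def A1_stmt : Prop := ∀ (q : ℝ) (w : ℂ), 0 < q → q ≤ 1 → ‖w‖ < 1 →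
  0 < (Sg w).re ∧ 0 < (Rf w).re ∧ Rf w ^ 2 = Sg w ∧ Bs q w ∈ Complex.slitPlane ∧ 0 < (Qf q w).re ∧
  0 < (Qf q w ^ 2).re ∧ Qf q w ^ 4 = Bs q w ∧ Qf 1 w = Rf w ∧ 1 - w ≠ 0 ∧ 1 + w ≠ 0

/-- A2. The Koebe flow. `1 - psi = 2/(Q^2+1)`, `1 + psi = 2 Q^2/(Q^2+1)`, `Sg (psi) = Q^2`, `|psi| < 1` since `Re Q^2 > 0`;
`K(w) = (S^2-1)/4`. `sc q w * w = q w (1-psi)^2/(1-w)^2 = q K(w) (1-psi)^2 = K(psi) (1 - psi)^2 = psi`. -/
def A2_stmt : Prop := ∀ (q : ℝ) (w : ℂ), 0 < q → q ≤ 1 → ‖w‖ < 1 →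
  ‖psi q w‖ < 1 ∧ Kb (psi q w) = q * Kb w ∧ sc q w * w = psi q w ∧ Sg (psi q w) = Qf q w ^ 2 ∧ Rf (psi q w) = Qf q w ∧
  Bs q w = 1 + 4 * q * Kb w ∧ psi q 0 = 0 ∧ sc q 0 = q ∧ Rf 0 = 1 ∧ Qf q 0 = 1 ∧ psi 1 w = w ∧ sc 1 w = 1

/-- A3. Time derivatives (`t ≥ 0`, two sided at `t = 0` too, since the slit plane is open). `Q^4 = 1 + e^{-t}(S^2-1)`, so
`4 Q^3 Q' = -(Q^4-1)`, `Q' = -Q (Q^4-1)/(4Q^4) = -Q psi/(1+psi)^2` (as `Q^2 = (1+psi)/(1-psi)`); `psi' = -psi (1-psi)/(1+psi)`;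
`sc' = -sc (1-psi)/(1+psi)`. -/
def A3_stmt : Prop := ∀ (w : ℂ) (t : ℝ), ‖w‖ < 1 → 0 ≤ t →
  HasDerivAt (fun τ : ℝ => Qf (Real.exp (-τ)) w)
    (-(Qf (Real.exp (-t)) w * (psi (Real.exp (-t)) w / (1 + psi (Real.exp (-t)) w) ^ 2))) t ∧
  HasDerivAt (fun τ : ℝ => psi (Real.exp (-τ)) w) (-(psi (Real.exp (-t)) w * pp (psi (Real.exp (-t)) w))) t ∧
  HasDerivAt (fun τ : ℝ => sc (Real.exp (-τ)) w) (-(sc (Real.exp (-t)) w * pp (psi (Real.exp (-t)) w))) t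

/-- A4. Analyticity in `w` on the unit disc. -/
def A4_stmt : Prop := ∀ (q : ℝ), 0 < q → q ≤ 1 →
  AnalyticOnNhd ℂ Rf (ball 0 1) ∧ AnalyticOnNhd ℂ (Qf q) (ball 0 1) ∧ AnalyticOnNhd ℂ (psi q) (ball 0 1) ∧
  AnalyticOnNhd ℂ (sc q) (ball 0 1) ∧ ∀ ε : Bool, AnalyticOnNhd ℂ (rho ε q) (ball 0 1)

/-- A5. Limits as `t → ∞`: `Bs e^{-t} w → 1` uniformly on `‖w‖ ≤ r`, so `Q → 1`, `psi → 0`, `e^t sc = ((1-psi)/(1-w))^2 → (1-w)^{-2}`. -/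
def A5_stmt : Prop :=
  TendstoLocallyUniformlyOn (fun (t : ℝ) w => (Real.exp t : ℂ) * sc (Real.exp (-t)) w) (fun w => ((1 - w) ^ 2)⁻¹) atTop
    (ball (0 : ℂ) 1) ∧
  TendstoLocallyUniformlyOn (fun (t : ℝ) w => rho true (Real.exp (-t)) w) Rf atTop (ball (0 : ℂ) 1)

/-! ## B: the flows in the ball -/

/-- B1. The fields are in `𝒩_I`. Linear part: `pp 0 = 1`. With `w = inner ℂ u z`, `y = z - w u ⟂ u`, `‖y‖^2 = ‖z‖^2 - |w|^2`: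
`inner ℂ z (h z) = |w|^2 p(w) + (p(w) - ε w/(1+w)^2) ‖y‖^2` (conjugates as `inner ℂ z u = conj w`).  `Re p(w) = (1-|w|^2)/|1+w|^2 > 0`.
For `ε = true`: `|w|^2/|1+w|^2 + Re p(w) - Re (w/(1+w)^2) = (1-|w|^2)(1+Re w)/|1+w|^4 ≥ 0`; if
`c := Re(p(w) - w/(1+w)^2) ≥ 0` the sum is positive for `z ≠ 0` (`w = 0` gives `c = 1`); if `c < 0` then, as `‖y‖^2 < 1 - |w|^2`, the sum is
`> |w|^2 Re p + (1-|w|^2) c = (1-|w|^2)(|w|^2/|1+w|^2 + c) ≥ 0`. -/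
def B1_stmt : Prop := ∀ (E : Type) [NormedAddCommGroup E] [InnerProductSpace ℂ E] [CompleteSpace E] (ε : Bool) (u : E),
  ‖u‖ = 1 → IsCara (ContinuousLinearMap.id ℂ E) (hf ε u)

/-- B2. `VV` solves the equation. `inner ℂ u (VV ε u q z) = sc q w * w = psi q w`; `VV = psi u + sc rho y` with `y = z - w u` constant in time;
`(sc rho)' = -(sc rho)(p(psi) - ε psi/(1+psi)^2)` by A3 (`rho = Rf w/Q`). -/
def B2_stmt : Prop := ∀ (E : Type) [NormedAddCommGroup E] [InnerProductSpace ℂ E] [CompleteSpace E] (ε : Bool) (u z : E),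
  ‖u‖ = 1 → ‖z‖ < 1 → VV ε u 1 z = z ∧ ∀ t : ℝ, 0 ≤ t →
  HasDerivAt (fun τ : ℝ => VV ε u (Real.exp (-τ)) z) (-(hf ε u (VV ε u (Real.exp (-t)) z))) t

/-- B3. The ball is invariant: by B1, B2 `‖VV‖^2` has derivative `-2 Re inner (VV) (h (VV)) ≤ 0` as long as `VV` is in the ball
(take the supremum of the times up to which `‖VV‖ ≤ ‖z‖`; or `image_le_of_deriv_right_le`...). -/
def B3_stmt : Prop := ∀ (E : Type) [NormedAddCommGroup E] [InnerProductSpace ℂ E] [CompleteSpace E] (ε : Bool) (u z : E)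
  (t : ℝ), ‖u‖ = 1 → ‖z‖ < 1 → 0 ≤ t → ‖VV ε u (Real.exp (-t)) z‖ ≤ ‖z‖

/-- B4. `ff u` has parametric representation: the field `hf true u` (constant in time), `v z t = VV true u e^{-t} z` (B1, B2, B3; locally
absolutely continuous: the derivative is continuous, so bounded on `[0,T]`), the limit by A5 (on compact sets of the ball `inner ℂ u z` stays in a
compact subset of the disc; `NormedSpace.exp ((t:ℂ) • id) x = e^t x`); `ff u` is analytic with `ff u 0 = 0` and derivative `id` at 0. -/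
def B4_stmt : Prop := ∀ (E : Type) [NormedAddCommGroup E] [InnerProductSpace ℂ E] [CompleteSpace E] [ProperSpace E] (u : E),
  ‖u‖ = 1 → ParamRep (ContinuousLinearMap.id ℂ E) (ff u)

/-- B5a. Glueing and translating absolutely continuous functions. -/
def B5a_stmt : Prop := ∀ (E : Type) [NormedAddCommGroup E] (f g : ℝ → E) (T T' : ℝ), 0 ≤ T → T ≤ T' →
  AbsolutelyContinuousOnInterval f 0 T → AbsolutelyContinuousOnInterval g 0 (T' - T) → f T = g 0 →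
  AbsolutelyContinuousOnInterval (fun t => if t ≤ T then f t else g (t - T)) 0 T'

/-- B5. Composition. With `T = -log q`: new field `hf ε u z` for `t < T`, `h z (t - T)` for `t ≥ T`; new flow `VV ε u e^{-t} z` for `t ≤ T`,
`v (VV ε u q z) (t - T)` for `t > T`; the limit of `e^t v'(z,t) = q⁻¹ e^{t-T} v (VV ε u q z, t-T)` is `q⁻¹ f(VV ε u q z)`, locally uniformly
(compact sets go to compact sets under the continuous map `VV ε u q`, use B3). Analytic by A4; derivative at 0: `q⁻¹ • id ∘ (q • id)`. -/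
def B5_stmt : Prop := ∀ (E : Type) [NormedAddCommGroup E] [InnerProductSpace ℂ E] [CompleteSpace E] [ProperSpace E]
  (ε : Bool) (u : E) (q : ℝ) (f : E → E), ‖u‖ = 1 → 0 < q → q ≤ 1 → ParamRep (ContinuousLinearMap.id ℂ E) f →
  ParamRep (ContinuousLinearMap.id ℂ E) (fun z => (q : ℂ)⁻¹ • f (VV ε u q z))

/-! ## C: the coefficient -/

/-- C1. The coefficient functional and slices: chain rule for `ζ ↦ f (ζ • e)` (or compare power series). -/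
def C1_stmt : Prop := ∀ (E : Type) [NormedAddCommGroup E] [InnerProductSpace ℂ E] [CompleteSpace E] (f : E → E) (e : E)
  (m : ℕ), AnalyticAt ℂ f 0 →
  (inner ℂ e (((m.factorial : ℂ)⁻¹) • iteratedFDeriv ℂ m f 0 (fun _ => e)) : ℂ) = cf m (fun ζ : ℂ => inner ℂ e (f (ζ • e)))

/-- C2. Coordinates in the plane of two orthonormal vectors (real angle): pure algebra, `u = cos θ e1 + sin θ e2`,
`inner ℂ u z = A cos θ + B sin θ`, `z - w u = (B cos θ - A sin θ) (-sin θ e1 + cos θ e2)`. -/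
def C2_stmt : Prop := ∀ (E : Type) [NormedAddCommGroup E] [InnerProductSpace ℂ E] (e₁ e₂ : E) (θ : ℝ) (A B : ℂ),
  ‖e₁‖ = 1 → ‖e₂‖ = 1 → (inner ℂ e₁ e₂ : ℂ) = 0 →
  ‖(Real.cos θ : ℂ) • e₁ + (Real.sin θ : ℂ) • e₂‖ = 1 ∧
  (∀ (ε : Bool) (q : ℝ), VV ε ((Real.cos θ : ℂ) • e₁ + (Real.sin θ : ℂ) • e₂) q (A • e₁ + B • e₂) =
    (stg ε θ q (A, B)).1 • e₁ + (stg ε θ q (A, B)).2 • e₂) ∧
  (inner ℂ e₁ (ff ((Real.cos θ : ℂ) • e₁ + (Real.sin θ : ℂ) • e₂) (A • e₁ + B • e₂)) : ℂ) = fin θ (A, B)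

/-- C3. `FF` is analytic at `(0, 0)`: at `κ = ζ = 0` every `w` is 0, where `sc q`, `rho ε q`, `Rf` are analytic (A4). -/
def C3_stmt : Prop := ∀ δ lam : ℝ, 0 < δ → δ ≤ 1 / 3 → AnalyticAt ℂ (fun p : ℂ × ℂ => FF δ lam p.1 p.2) (0, 0)

/-- C4a. Second order expansion of one stage with angle `τ κ` (`W = Rf A0`, `W' = Rf (psi q A0) = Qf q A0`).
Put `w = A cos(τκ) + B sin(τκ) = A0 (1 + κ^2 a_θ/W^2) + o(κ^2)` with `a_θ = a + τ W y - τ^2 W^2/2`,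
`b = B cos(τκ) - A sin(τκ) = κ A0 y_θ/W + o(κ)` with `y_θ = y - τ W`.
`psi q w = psi q A0 (1 + κ^2 a_θ/W'^2) + o(κ^2)` because `psi q` is differentiable at `A0` with derivative
`psi q A0 W^2/(A0 W'^2)` (from `K(psi q w) = q K(w)`, `A K'(A) = K(A) W^2`); `sc q w → sc q A0 = psi q A0/A0`, `rho → rho`;
new `b` is `κ psi y_θ'/W' + o(κ)`, `y_θ' = y_θ` for `ε = true`, `y_θ W'/W` for `ε = false`. Rotate back: expansions of `cos`, `sin`. -/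
def C4a_stmt : Prop := ∀ (P : ℝ → ℂ × ℂ) (A0 a y : ℂ) (τ q : ℝ) (ε : Bool), A0 ≠ 0 → ‖A0‖ < 1 → 0 < q → q ≤ 1 →
  Jt P A0 a y →
  Jt (fun κ : ℝ => stg ε ((τ * κ : ℝ) : ℂ) q (P κ)) (psi q A0)
    (a + τ * Rf A0 * y - τ ^ 2 * Rf A0 ^ 2 / 2 -
      τ * Rf (psi q A0) * ((y - τ * Rf A0) * bif ε then 1 else Rf (psi q A0) / Rf A0) - τ ^ 2 * Rf (psi q A0) ^ 2 / 2)
    ((y - τ * Rf A0) * (bif ε then 1 else Rf (psi q A0) / Rf A0) + τ * Rf (psi q A0))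

/-- C4b. The last stage: with `a_θ`, `y_θ` as in C4a: `K(w) = K(A0)(1 + κ^2 a_θ) + o(κ^2)` and
`(1-w)^{-2} Rf w b = κ K(A0) y_θ + o(κ)`. -/
def C4b_stmt : Prop := ∀ (P : ℝ → ℂ × ℂ) (A0 a y : ℂ) (τ : ℝ), A0 ≠ 0 → ‖A0‖ < 1 → Jt P A0 a y →
  (fun κ : ℝ => fin ((τ * κ : ℝ) : ℂ) (P κ) - Kb A0 - (κ : ℂ) ^ 2 * (Kb A0 *
    (a + τ * Rf A0 * y - τ ^ 2 * Rf A0 ^ 2 / 2 - τ * (y - τ * Rf A0) - τ ^ 2 / 2))) =o[𝓝 0] fun κ : ℝ => κ ^ 2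

/-- C4. The expansion of `FF` for fixed `ζ`. The curve starts as the constant `(psi (3δ) ζ, 0) = stg true 0 (3δ) (ζ, 0)`, for which
`Jt` holds with `a = y = 0`; then C4a with `(τ, q, ε) = (1, 2/3, true)`, `(-lam δ, 1/2, false)`, then C4b with `τ = -1`. `W0 = Rf (psi (3δ) ζ)
= Qf (3δ) ζ = Wd (3δ) (Kb ζ)`, and (as `psi q (psi q' ζ) = psi (q q') ζ`, or directly from `K`) `W1 = Wd (2δ) (Kb ζ)`, `W2 = Wd δ (Kb ζ)`.
The algebra: `σ = -lam δ`, `c = 1 - W0/W1`: after stage 1 `y1 = c W1`, `a1 = -y1^2/2`; after stage 2 `y2 = c W2`,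
`a2 = -(c-σ)^2 (W1^2-W2^2)/2 - c^2 W2^2/2`; at the end `-( (c-σ)^2 (W1^2-W2^2) + (c W2 + W2 - 1)^2)/2`. -/
def C4_stmt : Prop := ∀ (δ lam : ℝ) (ζ : ℂ), 0 < δ → δ ≤ 1 / 3 → ζ ≠ 0 → ‖ζ‖ < 1 →
  (fun κ : ℝ => FF δ lam κ ζ - Kb ζ - (κ : ℂ) ^ 2 * DD δ lam (Kb ζ)) =o[𝓝 0] fun κ : ℝ => κ ^ 2

/-- C5. Jets and Taylor coefficients. `Φ` is holomorphic and bounded on a polydisc `|κ| < 2r, |ζ| < 2r`. For fixed `ζ` the Taylor polynomial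
of order `N` in `κ` is `Φ0(ζ) + κ^N D(ζ)` (for `ζ ≠ 0`, by the hypothesis), with remainder `≤ C |κ|^{N+1}`, `C` independent of `ζ`
(Cauchy estimates in `κ`). So `g = Φ(κ,·) - Φ0 - κ^N D` is holomorphic in `|ζ| < r'` and bounded by `C |κ|^{N+1}` (also at `ζ = 0` by continuity);
Cauchy estimate in `ζ` for the coefficient. -/
def C5_stmt : Prop := ∀ (Φ : ℂ × ℂ → ℂ) (Φ₀ D : ℂ → ℂ) (N m : ℕ), 1 ≤ N → AnalyticAt ℂ Φ (0, 0) → AnalyticAt ℂ Φ₀ 0 →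
  AnalyticAt ℂ D 0 →
  (∀ᶠ ζ : ℂ in 𝓝[≠] 0, (fun κ : ℝ => Φ (κ, ζ) - Φ₀ ζ - (κ : ℂ) ^ N * D ζ) =o[𝓝[>] 0] fun κ : ℝ => κ ^ N) →
  (fun κ : ℝ => cf m (fun ζ => Φ (κ, ζ)) - cf m Φ₀ - (κ : ℂ) ^ N * cf m D) =o[𝓝[>] 0] fun κ : ℝ => κ ^ N

/-- C6. Coefficients of powers of the Koebe function: `(1-ζ)^{-k-1} = ∑ (n+k choose k) ζ^n`. -/
def C6_stmt : Prop := ∀ m : ℕ, 3 ≤ m → cf m Kb = m ∧ cf m (fun ζ => Kb ζ ^ 2) = (Nat.choose (m + 1) 3 : ℂ) ∧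
  cf m (fun ζ => Kb ζ ^ 3) = (Nat.choose (m + 2) 5 : ℂ) ∧ cf m (fun ζ => Kb ζ ^ 4) = (Nat.choose (m + 3) 7 : ℂ)

/-- C7. `DD` is analytic in `(δ, ζ)` at `(0,0)`, and for `δ → 0`, `X` fixed: `Wd (bδ) X = 1 + b δ X + O(δ^2)`, so `1 - W0/W1 = -δX + O(δ^2)`,
`W1^2 - W2^2 = 2δX + O(δ^2)`, `(1-W0/W1)W2 + W2 - 1 = O(δ^2)`:
`DD = -(X/2) ((lam - X)^2 δ^2 · 2 δ X) + O(δ^4)`. -/
def C7_stmt : Prop := ∀ lam : ℝ, AnalyticAt ℂ (fun p : ℂ × ℂ => DD p.1 lam (Kb p.2)) (0, 0) ∧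
  ∀ X : ℂ, (fun δ : ℝ => DD δ lam X - (δ : ℂ) ^ 3 * (-(lam ^ 2 * X ^ 2 - 2 * lam * X ^ 3 + X ^ 4))) =o[𝓝[>] 0] fun δ : ℝ => δ ^ 3

/-- C8. `a_3^2 > a_2 a_4`: for `m = 3` the right side is 0; in general the quotient is `(21/10)(m^2-4)/(m^2-9)`. -/
def C8_stmt : Prop := ∀ m : ℕ, 3 ≤ m →
  Nat.choose (m + 1) 3 * Nat.choose (m + 3) 7 < Nat.choose (m + 2) 5 ^ 2

/-- C9. From C5, C6, C7, C8 (with `lam = a_3/a_2`): some `δ` has positive coefficient of `DD`; then from C3, C4, C5: some small `κ > 0` has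
`Re (cf m (FF δ lam κ)) > m`. -/
def C9_stmt : Prop := ∀ m : ℕ, 3 ≤ m → ∃ δ lam κ : ℝ, 0 < δ ∧ δ ≤ 1 / 3 ∧ (m : ℝ) < (cf m (fun ζ => FF δ lam κ ζ)).re

/-- ZZ. The theorem. Take `e₁, e₂` the first two basis vectors, `f = (3δ)⁻¹ • (2/3)⁻¹ • (1/2)⁻¹ • ff u_{-κ} (VV false u_{-lam δ κ} (1/2) (VV true u_κ
(2/3) (VV true e₁ (3δ) z)))` (B4, B5 three times), its slice is `FF δ lam κ ζ` for all `ζ` (C2 four times), C1, C9. -/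
def ZZ_stmt : Prop := ∀ n m : ℕ, 2 ≤ n → 3 ≤ m → ∃ f : EuclideanSpace ℂ (Fin n) → EuclideanSpace ℂ (Fin n),
  ParamRep (ContinuousLinearMap.id ℂ (EuclideanSpace ℂ (Fin n))) f ∧ ∃ z : EuclideanSpace ℂ (Fin n), ‖z‖ = 1 ∧
    (m : ℝ) < ‖(inner ℂ z (((m.factorial : ℂ)⁻¹) • iteratedFDeriv ℂ m f 0 (fun _ => z)) : ℂ)‖

end BB
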